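import Pool.Agent.helper62.DP8.Spec

/-!
# Project sq8 (MP_e3efbc_co): module SMM
-/

set_option autoImplicit false

namespace Pool.Agent.helper62.DP8

theorem SMM (hBIT : BIT_stmt) (hORS : ORS_stmt) (hTAB : TAB_stmt) (hWTB : WTB_stmt) (hTRR : TRR_stmt) (hTDD : TDD_stmt)
    (hSPP : SPP_stmt) (hSOO : SOO_stmt) : SMM_stmt := by
  intro V G g s v hg hC hGi hR x y hx hy hadj
  obtain ⟨hR1, hR2⟩ := hTRR V G g s v hR
  obtain ⟨hD1, hD2, hD3⟩ := hTDD V G g s v hC hR
  obtain ⟨-, -, -, -, -, -, hM⟩ := hWTB.2.1 g s
  have hP := hSPP V G g s v hg hC hGi hR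
  have hO := hSOO V G g s v hg hC hGi hR
  have hn32 := hR.n32
  have hxy : x ≠ y := fun e => hadj.1 (by rw [e])
  have hNR : tb (ent (rows s.NR) x) y = false := by
    rw [Bool.eq_false_iff]
    intro h
    rw [hTAB.2.2.2 s.NR (fun e he => ⟨by have := (hR.wfNR e he).1; omega, by have := (hR.wfNR e he).2.1; omega⟩)] at h
    rcases h with h | h
    · exact (hR.wfNR _ h).2.2.2 hadj
    · exact (hR.wfNR _ h).2.2.2 hadj.symm
  rw [hM, hTAB.2.2.1]
  refine ⟨hx, by omega, ?_⟩
  rw [hBIT.2.2.2.1, hBIT.2.1, hBIT.2.1, hBIT.2.1, hBIT.2.2.2.2.1, hNR]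
  have hyx : decide (y = x) = false := by
    rw [decide_eq_false_iff_not]
    exact fun e => hxy e.symm
  rw [hyx]
  simp only [Bool.or_false, Bool.not_false, Bool.and_true, Bool.or_eq_true]
  rcases hadj.2 with h | ⟨z, hz1, hz2⟩
  · exact Or.inl (Or.inl (hP x y hx hy h))
  · by_cases hz : ∀ w < s.n, z ≠ v w
    · exact Or.inl (Or.inr (hO x y hx hy hxy z hz hz1 hz2))
    · push Not at hz
      obtain ⟨w, hw, rfl⟩ := hz
      right
      rw [hORS.1]
      refine ⟨w, hw, hP x w hx hw hz1, ?_⟩
      by_cases hxw : tb (ent (tbl g s).R x) w = true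
      · rw [hxw]
        simpa using hP w y hw hy hz2
      · rw [Bool.not_eq_true] at hxw
        rw [hxw]
        by_cases hDw : Nat.ble (ent (tbl g s).D w) 1 = true
        · rw [hDw]
          simpa using hP w y hw hy hz2
        · have hDw' : Nat.ble (ent (tbl g s).D w) 1 = false := by rwa [Bool.not_eq_true] at hDw
          rw [hDw']
          simp only [Bool.or_false, cond_false]
          by_contra hcon
          have hge : 2 ≤ ent (tbl g s).D w := by
            by_contra hlt
            apply hDw
            rw [Nat.ble_eq]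
            omega
          obtain ⟨U, hU1, hU2⟩ := hD3 w hw
          have hxU : v x ∈ U := by
            rw [hU2]
            refine ⟨hz1.symm, ?_⟩
            intro y' hy' he
            obtain ⟨k1, k2, k3, k4, k5⟩ := hR2 w y' hy'
            have := hR.inj x hx y' k2 he
            subst this
            rw [hxw] at k5
            exact Bool.false_ne_true k5
          have hyU : v y ∈ U := by
            rw [hU2]
            refine ⟨hz2, ?_⟩
            intro y' hy' he
            obtain ⟨k1, k2, k3, k4, k5⟩ := hR2 w y' hy'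
            have := hR.inj y hy y' k2 he
            subst this
            exact hcon hy'
          have hcard : U.card ≤ 1 := by omega
          exact hadj.1 (Finset.card_le_one.1 hcard _ hxU _ hyU)

end Pool.Agent.helper62.DP8
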